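import Mathlib
import Pool.Agent.TH484.PH.GraphMain

set_option autoImplicit false

namespace Pool.Agent.Results.MP_b39aa3_co.OneThird

open Finset

/-- The pairs `(u, v)` of vertices in `[n]` with `u < v`, i.e. the possible edges of a graph on
`[n]`. -/
abbrev Pairs (n : ℕ) : Type := {p : Fin n × Fin n // p.1 < p.2}

open Classical in
/-- The edge set of a graph on `[n]`. -/
noncomputable def edges {n : ℕ} (H : SimpleGraph (Fin n)) : Finset (Pairs n) :=
  univ.filter (fun p => H.Adj p.1.1 p.1.2)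

/-- `(G₁, G₂)` is a clique step: `G₂` is a subgraph of `G₁`, and the edges of `G₁` which are not
edges of `G₂` are all the pairs inside a set `U` of at least two vertices. -/
def IsCliqueStep {n : ℕ} (G₁ G₂ : SimpleGraph (Fin n)) : Prop :=
  G₂ ≤ G₁ ∧ ∃ U : Finset (Fin n), 2 ≤ U.card ∧
    ∀ u v : Fin n, (G₁.Adj u v ∧ ¬ G₂.Adj u v) ↔ (u ∈ U ∧ v ∈ U ∧ u ≠ v)

/-- The polynomial of degree at most `D` with coefficients `c` and values in the abelian group `Γ`:
`A ↦ ∑ c T`, the sum over all subsets `T ⊆ A` with at most `D` elements. -/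
def poly {E Γ : Type} [AddCommGroup Γ] (D : ℕ) (c : Finset E → Γ) (A : Finset E) : Γ :=
  ∑ T ∈ A.powerset.filter (fun T => T.card ≤ D), c T

/-- The difference of `h` in direction `e`: `A ↦ h (A ∪ {e}) - h (A \ {e})`. -/
def diff {E : Type} [DecidableEq E] (e : E) (h : Finset E → ℝ) (A : Finset E) : ℝ :=
  h (insert e A) - h (A.erase e)

/-- All differences of order `k` of `h` have constant sign: for all `e₁, …, e_k` the function
`diff e₁ (… (diff e_k h))` is nowhere negative or nowhere positive (which of the two may depend on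
`e₁, …, e_k`). -/
def ConstSign {E : Type} [DecidableEq E] : ℕ → (Finset E → ℝ) → Prop
  | 0, h => (∀ A, 0 ≤ h A) ∨ (∀ A, h A ≤ 0)
  | k + 1, h => ∀ e, ConstSign k (diff e h)

/-- The two pairs share a vertex. -/
def Meet {n : ℕ} (p q : Pairs n) : Prop :=
  p.1.1 = q.1.1 ∨ p.1.1 = q.1.2 ∨ p.1.2 = q.1.1 ∨ p.1.2 = q.1.2

/-- `F` is a structured family of graphs on `[n]`, of complexity `(D, k, r, Γ)`: for a graph `H` with
edge set `A`, `H` is in `F` exactly if `R (0 < h₁ A, …, 0 < h_r A, q A)`. Here `R` is any condition,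
each `hᵢ` is a real function of `A` for which all differences of some order `j`, `1 ≤ j ≤ k`, have
constant sign, and `q` is a polynomial of degree at most `D` in the edges with values in `Γ` whose
coefficient `c T` is zero unless any two edges in `T` share a vertex. -/
def Structured (D k r : ℕ) (Γ : Type) [AddCommGroup Γ] {n : ℕ}
    (F : Finset (SimpleGraph (Fin n))) : Prop :=
  ∃ (h : Fin r → Finset (Pairs n) → ℝ) (c : Finset (Pairs n) → Γ) (R : (Fin r → Prop) → Γ → Prop),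
    (∀ i, ∃ j, 1 ≤ j ∧ j ≤ k ∧ ConstSign j (h i)) ∧
    (∀ T, c T ≠ 0 → ∀ p ∈ T, ∀ q ∈ T, Meet p q) ∧
    ∀ H : SimpleGraph (Fin n), H ∈ F ↔ R (fun i => 0 < h i (edges H)) (poly D c (edges H))

lemma constSign_iff {E : Type} [DecidableEq E] (k : ℕ) : ∀ h : Finset E → ℝ, ConstSign k h ↔
    Pool.Agent.TH484.PH.Reg k h := by
  induction k with
  | zero => exact fun h => Iff.rfl
  | succ k ih => exact fun h => forall_congr' fun e => ih _

lemma mem_edges {n : ℕ} (H : SimpleGraph (Fin n)) (p : Pairs n) :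
    p ∈ edges H ↔ H.Adj p.1.1 p.1.2 := by
  classical
  unfold edges
  rw [mem_filter]
  exact ⟨fun h => h.2, fun h => ⟨mem_univ _, h⟩⟩

lemma edges_inj {n : ℕ} : Function.Injective (edges (n := n)) := by
  intro G H hGH
  have h1 : ∀ a b : Fin n, a < b → (G.Adj a b ↔ H.Adj a b) := by
    intro a b hab
    have h2 := mem_edges G ⟨(a, b), hab⟩
    have h3 := mem_edges H ⟨(a, b), hab⟩
    rw [hGH] at h2
    exact h2.symm.trans h3
  ext a b
  rcases lt_trichotomy a b with h | h | h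
  · exact h1 a b h
  · rw [h]
    exact ⟨fun h' => absurd h' (G.loopless.irrefl b), fun h' => absurd h' (H.loopless.irrefl b)⟩
  · rw [G.adj_comm, H.adj_comm]
    exact h1 b a h

lemma edges_surj {n : ℕ} (A : Finset (Pairs n)) : ∃ H : SimpleGraph (Fin n), edges H = A := by
  classical
  refine ⟨SimpleGraph.fromRel (fun a b => ∃ h : a < b, (⟨(a, b), h⟩ : Pairs n) ∈ A), ?_⟩
  ext p
  rw [mem_edges, SimpleGraph.fromRel_adj]
  constructor
  · rintro ⟨-, ⟨h, h1⟩ | ⟨h, h1⟩⟩
    · exact h1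
    · exact absurd h (not_lt.2 p.2.le)
  · intro h
    exact ⟨p.2.ne, Or.inl ⟨p.2, h⟩⟩

lemma meet {n : ℕ} {p q : Pairs n} (h : Meet p q) :
    ∃ i j, Pool.Agent.TH484.PH.vert p i = Pool.Agent.TH484.PH.vert q j := by
  rcases h with h | h | h | h
  · exact ⟨0, 0, h⟩
  · exact ⟨0, 1, h⟩
  · exact ⟨1, 0, h⟩
  · exact ⟨1, 1, h⟩

/-- (1) Q1 holds for all `θ > 1/3`: if `n` is large then every family of at least
`θ 2^(n choose 2)` graphs on `[n]` contains a clique step.
(2) The same holds relative to structured families of any positive density: for all `θ > 1/3`,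
`δ > 0` and every complexity `(D, k, r, Γ)`, `Γ` a finite abelian group, if `n` is large and `F` is a
structured family of at least `δ 2^(n choose 2)` graphs on `[n]`, then every subfamily `S ⊆ F` with at
least `θ |F|` elements contains a clique step. -/
theorem result :
    (∀ θ : ℝ, 1 / 3 < θ → ∃ n₀ : ℕ, ∀ n : ℕ, n₀ ≤ n → ∀ S : Finset (SimpleGraph (Fin n)),
      θ * (2 : ℝ) ^ (n.choose 2) ≤ S.card → ∃ G₁ ∈ S, ∃ G₂ ∈ S, IsCliqueStep G₁ G₂) ∧
    (∀ (D k r : ℕ) (Γ : Type) [AddCommGroup Γ] [Finite Γ] (θ δ : ℝ), 1 / 3 < θ → 0 < δ →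
      ∃ n₀ : ℕ, ∀ n : ℕ, n₀ ≤ n → ∀ F S : Finset (SimpleGraph (Fin n)), Structured D k r Γ F →
        δ * (2 : ℝ) ^ (n.choose 2) ≤ F.card → S ⊆ F → θ * F.card ≤ S.card →
          ∃ G₁ ∈ S, ∃ G₂ ∈ S, IsCliqueStep G₁ G₂) := by
  classical
  have main : ∀ (D k r : ℕ) (Γ : Type) [AddCommGroup Γ] [Finite Γ] (θ δ : ℝ), 1 / 3 < θ → 0 < δ →
      ∃ n₀ : ℕ, ∀ n : ℕ, n₀ ≤ n → ∀ F S : Finset (SimpleGraph (Fin n)), Structured D k r Γ F →
        δ * (2 : ℝ) ^ (n.choose 2) ≤ F.card → S ⊆ F → θ * F.card ≤ S.card →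
          ∃ G₁ ∈ S, ∃ G₂ ∈ S, IsCliqueStep G₁ G₂ := by
    intro D k r Γ _ _ θ δ hθ hδ
    obtain ⟨θ', h1, h2⟩ := exists_between hθ
    obtain ⟨N₀, hN₀⟩ := Pool.Agent.TH484.PH.vec 2 (by norm_num) θ' (by norm_num; linarith)
    obtain ⟨n₀, hn₀⟩ := Pool.Agent.TH484.PH.graphmain θ θ' (by linarith) h2 (max N₀ 1)
      (le_max_right _ _) (hN₀ _ (le_max_left _ _)) D k r Γ δ hδ
    refine ⟨n₀, fun n hn F S hF hFc hSF hS => ?_⟩
    obtain ⟨h, c, R, h3, h4, h5⟩ := hF
    have hcard : ∀ X : Finset (SimpleGraph (Fin n)), (X.image edges).card = X.card := fun X =>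
      card_image_of_injective _ edges_inj
    have hmem : ∀ (X : Finset (SimpleGraph (Fin n))) (H : SimpleGraph (Fin n)),
        edges H ∈ X.image edges ↔ H ∈ X := by
      intro X H
      rw [mem_image]
      exact ⟨fun ⟨H', h6, h7⟩ => edges_inj h7 ▸ h6, fun h6 => ⟨H, h6, rfl⟩⟩
    have hgood := hn₀ n hn h c R (F.image edges) (S.image edges)
      (fun i => by
        obtain ⟨j, h6, h7, h8⟩ := h3 i
        exact ⟨j, h6, h7, (constSign_iff j _).1 h8⟩)
      (fun T hT x hx y hy => meet (h4 T hT x hx y hy))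
      (fun A => by
        obtain ⟨H, rfl⟩ := edges_surj A
        rw [hmem]
        exact h5 H)
      (by rw [hcard]; exact hFc)
      (by
        rw [inter_eq_right.2 (image_subset_image hSF), hcard, hcard]
        exact hS)
    obtain ⟨A, hA, U, hU, hdis, hAU⟩ := hgood
    obtain ⟨G₂, rfl⟩ := edges_surj A
    obtain ⟨G₁, h6⟩ := edges_surj (edges G₂ ∪ Pool.Agent.TH484.GC.KK U)
    rw [← h6] at hAU
    rw [hmem] at hA hAU
    have h7 : ∀ a b : Fin n, a < b → (G₁.Adj a b ↔ (G₂.Adj a b ∨ (a ∈ U ∧ b ∈ U))) := by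
      intro a b hab
      have h8 := mem_edges G₁ ⟨(a, b), hab⟩
      have h9 := mem_edges G₂ ⟨(a, b), hab⟩
      rw [← h8, h6, mem_union, h9, Pool.Agent.TH484.GC.KK, mem_filter]
      simp only [mem_univ, true_and]
    have h8 : ∀ a b : Fin n, a < b → a ∈ U → b ∈ U → ¬ G₂.Adj a b := by
      intro a b hab ha hb hG
      have h9 := mem_edges G₂ ⟨(a, b), hab⟩
      refine (Finset.disjoint_left.1 hdis) (h9.2 hG) ?_
      rw [Pool.Agent.TH484.GC.KK, mem_filter]
      exact ⟨mem_univ _, ha, hb⟩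
    refine ⟨G₁, hAU, G₂, hA, ?_, U, hU, ?_⟩
    · intro a b hab
      rcases lt_trichotomy a b with h9 | h9 | h9
      · exact (h7 a b h9).2 (Or.inl hab)
      · exact absurd h9 hab.ne
      · exact ((h7 b a h9).2 (Or.inl hab.symm)).symm
    · have h9 : ∀ a b : Fin n, a < b →
          ((G₁.Adj a b ∧ ¬ G₂.Adj a b) ↔ (a ∈ U ∧ b ∈ U ∧ a ≠ b)) := by
        intro a b hab
        rw [h7 a b hab]
        constructor
        · rintro ⟨h10 | h10, h11⟩
          · exact absurd h10 h11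
          · exact ⟨h10.1, h10.2, hab.ne⟩
        · rintro ⟨h10, h11, -⟩
          exact ⟨Or.inr ⟨h10, h11⟩, h8 a b hab h10 h11⟩
      intro a b
      rcases lt_trichotomy a b with h10 | h10 | h10
      · exact h9 a b h10
      · rw [h10]
        exact ⟨fun h' => absurd h'.1 (G₁.loopless.irrefl b), fun h' => absurd rfl h'.2.2⟩
      · rw [G₁.adj_comm, G₂.adj_comm, h9 b a h10]
        exact ⟨fun h' => ⟨h'.2.1, h'.1, h'.2.2.symm⟩, fun h' => ⟨h'.2.1, h'.1, h'.2.2.symm⟩⟩
  refine ⟨fun θ hθ => ?_, main⟩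
  obtain ⟨n₀, hn₀⟩ := main 0 1 0 (ZMod 1) θ 1 hθ one_pos
  refine ⟨n₀, fun n hn S hS => ?_⟩
  have hall : ((univ : Finset (SimpleGraph (Fin n))).card : ℝ) = (2 : ℝ) ^ (n.choose 2) := by
    have h1 : (univ : Finset (SimpleGraph (Fin n))).card =
        (univ : Finset (Finset (Pairs n))).card := by
      refine card_bij (fun H _ => edges H) (fun _ _ => mem_univ _) (fun _ _ _ _ h => edges_inj h)
        (fun A _ => ?_)
      obtain ⟨H, hH⟩ := edges_surj A
      exact ⟨H, mem_univ _, hH⟩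
    rw [h1, card_univ, Fintype.card_finset, Pool.Agent.TH484.GC.card_Pr]
    push_cast
    rfl
  refine hn₀ n hn univ S ?_ (by rw [hall, one_mul]) (subset_univ _) (by rw [hall]; exact hS)
  exact ⟨fun _ _ => 0, fun _ => 0, fun _ _ => True, fun i => i.elim0, fun T hT => absurd rfl hT,
    fun H => ⟨fun _ => trivial, fun _ => mem_univ _⟩⟩

end Pool.Agent.Results.MP_b39aa3_co.OneThird
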